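import Mathlib

set_option autoImplicit false
open Filter Topology

namespace Pool.Agent.Results.MP_69f3e4_an.Dichotomy

/-- achievement set: all subsums of the series -/
def Ach {d : ℕ} (v : ℕ → EuclideanSpace ℝ (Fin d)) : Set (EuclideanSpace ℝ (Fin d)) :=
  {s | ∃ ε : ℕ → ℝ, (∀ n, ε n = 0 ∨ ε n = 1) ∧ s = ∑' n, ε n • v n}

variable {d : ℕ}

theorem summ {v : ℕ → EuclideanSpace ℝ (Fin d)} (hs : Summable fun n => ‖v n‖) {ε : ℕ → ℝ}
    (h : ∀ n, ε n = 0 ∨ ε n = 1) : Summable fun n => ε n • v n :=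
  Summable.of_norm_bounded hs fun n => by rcases h n with h | h <;> simp [h]

theorem bound {v : ℕ → EuclideanSpace ℝ (Fin d)} (hs : Summable fun n => ‖v n‖)
    {s : EuclideanSpace ℝ (Fin d)} (h : s ∈ Ach v) : ‖s‖ ≤ ∑' n, ‖v n‖ := by
  obtain ⟨ε, hε, rfl⟩ := h
  exact tsum_of_norm_bounded hs.hasSum fun n => by rcases hε n with h | h <;> simp [h]

theorem closed {v : ℕ → EuclideanSpace ℝ (Fin d)} (hs : Summable fun n => ‖v n‖) :
    IsClosed (Ach v) := by
  classical
  have hc : Continuous (fun ε : ℕ → Bool => ∑' n, (if ε n then (1 : ℝ) else 0) • v n) := by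
    refine continuous_tsum (fun n => ?_) hs (fun n ε => ?_)
    · exact (continuous_of_discreteTopology
        (f := fun c : Bool => (if c then (1 : ℝ) else 0) • v n)).comp (continuous_apply n)
    · split_ifs <;> simp
  have : Ach v = Set.range (fun ε : ℕ → Bool => ∑' n, (if ε n then (1 : ℝ) else 0) • v n) := by
    ext s
    constructor
    · rintro ⟨ε, hε, rfl⟩
      refine ⟨fun n => decide (ε n = 1), ?_⟩
      simp only
      congr 1
      funext n
      rcases hε n with h | h <;> simp [h]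
    · rintro ⟨ε, rfl⟩
      exact ⟨fun n => if ε n then 1 else 0, fun n => by by_cases h : ε n <;> simp [h], rfl⟩
  rw [this]
  exact (isCompact_range hc).isClosed

theorem mem_succ {v : ℕ → EuclideanSpace ℝ (Fin d)} (hs : Summable fun n => ‖v n‖)
    (s : EuclideanSpace ℝ (Fin d)) :
    s ∈ Ach v ↔ s ∈ Ach (fun n => v (n + 1)) ∨ s - v 0 ∈ Ach (fun n => v (n + 1)) := by
  constructor
  · rintro ⟨ε, hε, rfl⟩
    rw [(summ hs hε).tsum_eq_zero_add]
    have : (∑' n, ε (n + 1) • v (n + 1)) ∈ Ach (fun n => v (n + 1)) :=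
      ⟨fun n => ε (n + 1), fun n => hε _, rfl⟩
    rcases hε 0 with h | h
    · left; simpa [h] using this
    · right; simpa [h] using this
  · rintro (⟨ε, hε, rfl⟩ | ⟨ε, hε, h⟩)
    · have h1 : ∀ n, (fun n => Nat.casesOn n (0 : ℝ) ε : ℕ → ℝ) n = 0 ∨
          (fun n => Nat.casesOn n (0 : ℝ) ε : ℕ → ℝ) n = 1 := by
        rintro (_ | n)
        · simp
        · exact hε n
      refine ⟨_, h1, ?_⟩
      rw [(summ hs h1).tsum_eq_zero_add]
      simp
    · have h1 : ∀ n, (fun n => Nat.casesOn n (1 : ℝ) ε : ℕ → ℝ) n = 0 ∨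
          (fun n => Nat.casesOn n (1 : ℝ) ε : ℕ → ℝ) n = 1 := by
        rintro (_ | n)
        · simp
        · exact hε n
      refine ⟨_, h1, ?_⟩
      rw [(summ hs h1).tsum_eq_zero_add, sub_eq_iff_eq_add'.mp h]
      simp

theorem step {v : ℕ → EuclideanSpace ℝ (Fin d)} (hs : Summable fun n => ‖v n‖)
    (h : (interior (Ach v)).Nonempty) : (interior (Ach fun n => v (n + 1))).Nonempty := by
  by_contra hn
  rw [Set.not_nonempty_iff_eq_empty] at hn
  have hs1 : Summable fun n => ‖v (n + 1)‖ := (summable_nat_add_iff 1).mpr hs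
  have e : Ach v = Ach (fun n => v (n + 1)) ∪
      (Homeomorph.subRight (v 0)) ⁻¹' Ach (fun n => v (n + 1)) := by
    ext s
    simpa using mem_succ hs s
  rw [e, interior_union_isClosed_of_interior_empty (closed hs1), hn] at h
  · simp at h
  · rw [← Homeomorph.preimage_interior, hn]; simp

theorem tail {v : ℕ → EuclideanSpace ℝ (Fin d)} (hs : Summable fun n => ‖v n‖)
    (h : (interior (Ach v)).Nonempty) {s : EuclideanSpace ℝ (Fin d)} (hm : s ∈ Ach v) (k : ℕ) :
    (interior (Ach fun n => v (n + k))).Nonempty ∧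
      ∃ f, s - f ∈ Ach (fun n => v (n + k)) ∧ ∀ t ∈ Ach (fun n => v (n + k)), t + f ∈ Ach v := by
  induction k with
  | zero => exact ⟨h, 0, by simpa using hm, by simp⟩
  | succ k ih =>
    obtain ⟨h1, f, h2, h3⟩ := ih
    have hk : Summable fun n => ‖v (n + k)‖ := (summable_nat_add_iff k).mpr hs
    have e : (fun n => v (n + (k + 1))) = fun n => (fun n => v (n + k)) (n + 1) := by
      funext n; congr 1; ring
    rw [e]
    refine ⟨step hk h1, ?_⟩
    rcases (mem_succ hk _).mp h2 with h4 | h4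
    · exact ⟨f, h4, fun t ht => h3 t ((mem_succ hk _).mpr (Or.inl ht))⟩
    · refine ⟨f + v (0 + k), by simpa [sub_sub] using h4, fun t ht => ?_⟩
      have := h3 (t + v (0 + k)) ((mem_succ hk _).mpr (Or.inr (by simpa using ht)))
      convert this using 1
      abel

theorem result (d : ℕ) (v : ℕ → EuclideanSpace ℝ (Fin d)) (hs : Summable fun n => ‖v n‖) :
    (IsClosed (Ach v) ∧ Ach v = closure (interior (Ach v))) ∨ IsNowhereDense (Ach v) := by
  by_cases h : (interior (Ach v)).Nonempty
  · left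
    refine ⟨closed hs, Set.Subset.antisymm (fun s hm => ?_)
      (closure_minimal interior_subset (closed hs))⟩
    rw [Metric.mem_closure_iff]
    intro δ hδ
    have ht := tendsto_sum_nat_add fun n => ‖v n‖
    obtain ⟨k, hk⟩ := (ht.eventually (gt_mem_nhds (half_pos hδ))).exists
    obtain ⟨⟨u, hu⟩, f, h2, h3⟩ := tail hs h hm k
    have hk' : Summable fun n => ‖v (n + k)‖ := (summable_nat_add_iff k).mpr hs
    refine ⟨u + f, ?_, ?_⟩
    · have : (Homeomorph.addRight f) '' (Ach fun n => v (n + k)) ⊆ Ach v := by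
        rintro _ ⟨t, ht, rfl⟩
        exact h3 t ht
      apply interior_mono this
      rw [← Homeomorph.image_interior]
      exact ⟨u, hu, rfl⟩
    · have b1 := bound hk' h2
      have b2 := bound hk' (interior_subset hu)
      rw [dist_eq_norm, show s - (u + f) = (s - f) - u by abel]
      linarith [norm_sub_le (s - f) u]
  · right
    rw [(closed hs).isNowhereDense_iff]
    exact Set.not_nonempty_iff_eq_empty.mp h

end Pool.Agent.Results.MP_69f3e4_an.Dichotomy
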